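import Pool.Agent.U501.Width.Iso

/-!
# Probability measure preserving actions and weak containment
-/

namespace Pool.Agent.U501.Width

open MeasureTheory Set Filter Topology

set_option linter.unusedSectionVars false

/-- A probability measure preserving action of `Γ` on `(X, μ)`. -/
structure PmpAction (Γ : Type) [Group Γ] {X : Type} [MeasurableSpace X] (μ : Measure X) where
  /-- the action -/
  act : Γ → X → X
  act_one : ∀ x, act 1 x = x
  act_mul : ∀ g h x, act (g * h) x = act g (act h x)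
  pres : ∀ g, MeasurePreserving (act g) μ μ

variable {Γ : Type} [Group Γ] {X Y Z : Type} [MeasurableSpace X] [MeasurableSpace Y]
  [MeasurableSpace Z] {μ : Measure X} {ν : Measure Y} {ρ : Measure Z}

/-- The action is free: for `g ≠ 1`, almost every point is moved by `g`. -/
def PmpAction.IsFree (a : PmpAction Γ μ) : Prop := ∀ g : Γ, g ≠ 1 → ∀ᵐ x ∂μ, a.act g x ≠ x

/-- `b` is weakly contained in `a`. -/
def WeaklyContained (b : PmpAction Γ μ) (a : PmpAction Γ ν) : Prop :=
  ∀ (F : Finset Γ) (ε : ℝ), 0 < ε → ∀ (n : ℕ) (A : Fin n → Set X), (∀ i, MeasurableSet (A i)) →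
    ∃ B : Fin n → Set Y, (∀ i, MeasurableSet (B i)) ∧ ∀ g ∈ F, ∀ i j,
      |μ.real (b.act g '' A i ∩ A j) - ν.real (a.act g '' B i ∩ B j)| < ε

lemma PmpAction.image_eq (a : PmpAction Γ μ) (g : Γ) (A : Set X) :
    a.act g '' A = a.act g⁻¹ ⁻¹' A := by
  ext x
  constructor
  · rintro ⟨y, hy, rfl⟩
    rw [mem_preimage, ← a.act_mul, inv_mul_cancel, a.act_one]; exact hy
  · intro hx
    refine ⟨a.act g⁻¹ x, hx, ?_⟩
    rw [← a.act_mul, mul_inv_cancel, a.act_one]

lemma PmpAction.measurable_image (a : PmpAction Γ μ) (g : Γ) {A : Set X}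
    (hA : MeasurableSet A) : MeasurableSet (a.act g '' A) := by
  rw [a.image_eq]; exact (a.pres g⁻¹).measurable hA

lemma PmpAction.real_image (a : PmpAction Γ μ) (g : Γ) {A : Set X}
    (hA : MeasurableSet A) : μ.real (a.act g '' A) = μ.real A := by
  rw [a.image_eq]; exact (a.pres g⁻¹).measureReal_preimage hA.nullMeasurableSet

lemma WeaklyContained.refl (a : PmpAction Γ μ) : WeaklyContained a a := by
  intro F ε hε n A hA
  exact ⟨A, hA, fun g _ i j => by simpa using hε⟩

lemma WeaklyContained.trans {a : PmpAction Γ μ} {b : PmpAction Γ ν} {c : PmpAction Γ ρ}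
    (h1 : WeaklyContained a b) (h2 : WeaklyContained b c) : WeaklyContained a c := by
  intro F ε hε n A hA
  obtain ⟨B, hB, hB2⟩ := h1 F (ε / 2) (by positivity) n A hA
  obtain ⟨C, hC, hC2⟩ := h2 F (ε / 2) (by positivity) n B hB
  refine ⟨C, hC, fun g hg i j => ?_⟩
  have e1 := hB2 g hg i j
  have e2 := hC2 g hg i j
  have e3 := abs_sub_le (μ.real (a.act g '' A i ∩ A j)) (ν.real (b.act g '' B i ∩ B j))
    (ρ.real (c.act g '' C i ∩ C j))
  linarith

lemma real_of_map {φ : X → Y} (hφ : Measurable φ) (hmap : Measure.map φ μ = ν) {S : Set Y}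
    (hS : MeasurableSet S) : ν.real S = μ.real (φ ⁻¹' S) := by
  subst hmap
  rw [Measure.real, Measure.real, Measure.map_apply hφ hS]

/-- A factor is weakly contained in its extension. -/
lemma weaklyContained_of_factor {a : PmpAction Γ ν} {b : PmpAction Γ μ} {φ : X → Y}
    (hφ : Measurable φ) (hmap : Measure.map φ μ = ν)
    (heq : ∀ g, ∀ᵐ x ∂μ, φ (b.act g x) = a.act g (φ x)) : WeaklyContained a b := by
  intro F ε hε n A hA
  refine ⟨fun i => φ ⁻¹' A i, fun i => hφ (hA i), fun g _ i j => ?_⟩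
  have h1 : ν.real (a.act g '' A i ∩ A j) = μ.real (b.act g '' (φ ⁻¹' A i) ∩ φ ⁻¹' A j) := by
    have hm : MeasurableSet (a.act g '' A i ∩ A j) := (a.measurable_image g (hA i)).inter (hA j)
    rw [real_of_map hφ hmap hm]
    apply measureReal_congr
    rw [a.image_eq, b.image_eq]
    filter_upwards [heq g⁻¹] with x hx
    apply propext
    change (φ x ∈ a.act g⁻¹ ⁻¹' A i ∩ A j) ↔ (x ∈ b.act g⁻¹ ⁻¹' (φ ⁻¹' A i) ∩ φ ⁻¹' A j)
    simp only [mem_inter_iff, mem_preimage, hx]
  rw [h1]
  simpa using hε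

lemma measurableSet_eq_std [StandardBorelSpace Y] {f g : X → Y} (hf : Measurable f)
    (hg : Measurable g) : MeasurableSet {x | f x = g x} := by
  let _ := upgradeStandardBorel Y
  exact measurableSet_eq_fun hf hg

/-- Transport of an action along an isomorphism mod null sets. -/
theorem exists_transport [Countable Γ] [StandardBorelSpace X] [StandardBorelSpace Y]
    {φ : X → Y} {ψ : Y → X} (h : AEIso μ ν φ ψ)
    (a : PmpAction Γ ν) : ∃ a' : PmpAction Γ μ, WeaklyContained a a' ∧ WeaklyContained a' a ∧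
      (a.IsFree → a'.IsFree) := by
  classical
  set Y0 : Set Y := ⋂ g : Γ, {y | φ (ψ (a.act g y)) = a.act g y} with hY0
  have hY0m : MeasurableSet Y0 := by
    apply MeasurableSet.iInter
    intro g
    exact measurableSet_eq_std ((h.meas.comp h.meas').comp (a.pres g).measurable)
      (a.pres g).measurable
  have hmem : ∀ y, y ∈ Y0 ↔ ∀ g : Γ, φ (ψ (a.act g y)) = a.act g y := by
    intro y; rw [hY0, mem_iInter]; rfl
  have hY0inv : ∀ y ∈ Y0, ∀ g, a.act g y ∈ Y0 := by
    intro y hy g
    rw [hmem] at hy ⊢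
    intro k
    rw [← a.act_mul]; exact hy _
  have hY0self : ∀ y ∈ Y0, φ (ψ y) = y := by
    intro y hy
    have := (hmem y).mp hy 1
    rwa [a.act_one] at this
  have hY0ae : ∀ᵐ y ∂ν, y ∈ Y0 := by
    have h1 : ∀ g : Γ, ∀ᵐ y ∂ν, φ (ψ (a.act g y)) = a.act g y := by
      intro g
      have h2 : ∀ᵐ y ∂(Measure.map (a.act g) ν), φ (ψ y) = y := by
        rw [(a.pres g).map_eq]; exact h.right
      exact ae_of_ae_map (a.pres g).measurable.aemeasurable h2
    filter_upwards [ae_all_iff.mpr h1] with y hy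
    exact (hmem y).mpr hy
  set X0 : Set X := φ ⁻¹' Y0 ∩ {x | ψ (φ x) = x} with hX0
  have hX0m : MeasurableSet X0 :=
    (h.meas hY0m).inter (measurableSet_eq_std (h.meas'.comp h.meas) measurable_id)
  have hX0ae : ∀ᵐ x ∂μ, x ∈ X0 := by
    have h1 : ∀ᵐ x ∂μ, φ x ∈ Y0 := by
      have h2 : ∀ᵐ y ∂(Measure.map φ μ), y ∈ Y0 := by rw [h.map]; exact hY0ae
      exact ae_of_ae_map h.meas.aemeasurable h2
    filter_upwards [h1, h.left] with x hx1 hx2
    exact ⟨hx1, hx2⟩
  have hstep : ∀ x ∈ X0, ∀ g, φ (ψ (a.act g (φ x))) = a.act g (φ x) := by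
    intro x hx g
    exact hY0self _ (hY0inv _ hx.1 g)
  have hX0inv : ∀ x ∈ X0, ∀ g, ψ (a.act g (φ x)) ∈ X0 := by
    intro x hx g
    refine ⟨?_, ?_⟩
    · rw [mem_preimage, hstep x hx g]; exact hY0inv _ hx.1 g
    · rw [mem_ofPred_eq, hstep x hx g]
  let f : Γ → X → X := fun g x => if x ∈ X0 then ψ (a.act g (φ x)) else x
  have hfpos : ∀ g, ∀ x ∈ X0, f g x = ψ (a.act g (φ x)) := fun g x hx => if_pos hx
  have hfneg : ∀ g, ∀ x, x ∉ X0 → f g x = x := fun g x hx => if_neg hx
  have hfmeas : ∀ g, Measurable (f g) := fun g =>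
    Measurable.ite hX0m (h.meas'.comp ((a.pres g).measurable.comp h.meas)) measurable_id
  have hfae : ∀ g, f g =ᵐ[μ] fun x => ψ (a.act g (φ x)) := by
    intro g
    filter_upwards [hX0ae] with x hx
    exact hfpos g x hx
  let a' : PmpAction Γ μ :=
    { act := f
      act_one := by
        intro x
        by_cases hx : x ∈ X0
        · rw [hfpos 1 x hx, a.act_one]; exact hx.2
        · exact hfneg 1 x hx
      act_mul := by
        intro g k x
        by_cases hx : x ∈ X0
        · rw [hfpos k x hx, hfpos g _ (hX0inv x hx k), hfpos (g * k) x hx, hstep x hx k,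
            a.act_mul]
        · rw [hfneg k x hx, hfneg g x hx, hfneg (g * k) x hx]
      pres := by
        intro g
        refine ⟨hfmeas g, ?_⟩
        rw [Measure.map_congr (hfae g)]
        have h1 : (fun x => ψ (a.act g (φ x))) = ψ ∘ (a.act g ∘ φ) := rfl
        rw [h1, ← Measure.map_map h.meas' ((a.pres g).measurable.comp h.meas),
          ← Measure.map_map (a.pres g).measurable h.meas, h.map, (a.pres g).map_eq, h.map'] }
  have ha' : ∀ g x, a'.act g x = f g x := fun _ _ => rfl
  refine ⟨a', ?_, ?_, ?_⟩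
  · apply weaklyContained_of_factor h.meas h.map
    intro g
    filter_upwards [hX0ae] with x hx
    rw [ha', hfpos g x hx, hstep x hx g]
  · apply weaklyContained_of_factor h.meas' h.map'
    intro g
    filter_upwards [hY0ae] with y hy
    have h1 : ψ y ∈ X0 := by
      refine ⟨?_, ?_⟩
      · rw [mem_preimage, hY0self y hy]; exact hy
      · rw [mem_ofPred_eq, hY0self y hy]
    rw [ha', hfpos g _ h1, hY0self y hy]
  · intro hfree g hg
    have h1 : ∀ᵐ x ∂μ, a.act g (φ x) ≠ φ x := by
      have h2 : ∀ᵐ y ∂(Measure.map φ μ), a.act g y ≠ y := by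
        rw [h.map]; exact hfree g hg
      exact ae_of_ae_map h.meas.aemeasurable h2
    filter_upwards [h1, hX0ae] with x hx1 hx2 hx3
    rw [ha', hfpos g x hx2] at hx3
    apply hx1
    rw [← hstep x hx2 g, hx3]

end Pool.Agent.U501.Width
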