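import Mathlib

/-!
# Amenable groups, and approximately invariant means
-/

namespace Pool.Agent.U501.Width

open Set Filter Topology

/-- `Γ` is amenable: there is a left invariant finitely additive probability measure on the
subsets of `Γ`. -/
def Amenable (Γ : Type*) [Group Γ] : Prop :=
  ∃ m : Set Γ → ℝ, (∀ A, 0 ≤ m A) ∧ m Set.univ = 1 ∧
    (∀ A B, Disjoint A B → m (A ∪ B) = m A + m B) ∧
    ∀ (g : Γ) (A : Set Γ), m ((fun x => g * x) '' A) = m A

theorem amenable_of_finite (Γ : Type*) [Group Γ] [Finite Γ] : Amenable Γ := by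
  classical
  have : Fintype Γ := Fintype.ofFinite Γ
  have hc : (0 : ℝ) < (Set.univ : Set Γ).ncard := by
    rw [Set.ncard_univ, Nat.card_eq_fintype_card]
    exact_mod_cast Fintype.card_pos
  refine ⟨fun A => (A.ncard : ℝ) / (Set.univ : Set Γ).ncard, ?_, ?_, ?_, ?_⟩
  · intro A; positivity
  · exact div_self hc.ne'
  · intro A B hAB
    beta_reduce
    rw [Set.ncard_union_eq hAB (Set.toFinite _) (Set.toFinite _)]
    push_cast; ring
  · intro g A
    beta_reduce
    rw [Set.ncard_image_of_injective _ (mul_right_injective g)]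

/-- A finitely additive probability measure. -/
structure FinAdd {Γ : Type*} (m : Set Γ → ℝ) : Prop where
  nonneg : ∀ A, 0 ≤ m A
  univ : m Set.univ = 1
  union : ∀ A B, Disjoint A B → m (A ∪ B) = m A + m B

lemma FinAdd.le_one {Γ : Type*} {m : Set Γ → ℝ} (h : FinAdd m) (A : Set Γ) : m A ≤ 1 := by
  have h1 := h.union A Aᶜ disjoint_compl_right
  rw [Set.union_compl_self, h.univ] at h1
  have h2 := h.nonneg Aᶜ
  linarith

theorem amenable_of_approx {Γ : Type*} [Group Γ]
    (h : ∀ (F : Finset Γ) (n : ℕ), ∃ m : Set Γ → ℝ, FinAdd m ∧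
      ∀ g ∈ F, ∀ A : Set Γ, |m ((fun x => g * x) '' A) - m A| ≤ 1 / ((n : ℝ) + 1)) :
    Amenable Γ := by
  classical
  choose m hm1 hm2 using fun i : Finset Γ × ℕ => h i.1 i.2
  let U : Ultrafilter (Finset Γ × ℕ) := Ultrafilter.of atTop
  have hU : (U : Filter (Finset Γ × ℕ)) ≤ atTop := Ultrafilter.of_le _
  have hlim : ∀ A : Set Γ, ∃ L : ℝ, L ∈ Set.Icc (0 : ℝ) 1 ∧
      Tendsto (fun i => m i A) (U : Filter (Finset Γ × ℕ)) (𝓝 L) := by
    intro A
    have hc : IsCompact (Set.Icc (0 : ℝ) 1) := isCompact_Icc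
    have h1 : ((U.map (fun i => m i A) : Ultrafilter ℝ) : Filter ℝ) ≤ 𝓟 (Set.Icc (0 : ℝ) 1) := by
      rw [le_principal_iff]
      apply Filter.mem_map.mpr
      apply Filter.univ_mem'
      intro i
      exact ⟨(hm1 i).nonneg A, (hm1 i).le_one A⟩
    obtain ⟨L, hL, hL2⟩ := hc.ultrafilter_le_nhds (U.map (fun i => m i A)) h1
    exact ⟨L, hL, hL2⟩
  choose L hL1 hL2 using hlim
  refine ⟨L, fun A => (hL1 A).1, ?_, ?_, ?_⟩
  · have h1 : Tendsto (fun i => m i Set.univ) (U : Filter (Finset Γ × ℕ)) (𝓝 1) := by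
      have : (fun i => m i Set.univ) = fun _ => (1 : ℝ) := funext fun i => (hm1 i).univ
      rw [this]; exact tendsto_const_nhds
    exact tendsto_nhds_unique (hL2 _) h1
  · intro A B hAB
    have h1 : Tendsto (fun i => m i (A ∪ B)) (U : Filter (Finset Γ × ℕ)) (𝓝 (L A + L B)) := by
      have : (fun i => m i (A ∪ B)) = fun i => m i A + m i B :=
        funext fun i => (hm1 i).union A B hAB
      rw [this]; exact (hL2 A).add (hL2 B)
    exact tendsto_nhds_unique (hL2 _) h1
  · intro g A
    have h1 : Tendsto (fun i => m i ((fun x => g * x) '' A) - m i A)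
        (U : Filter (Finset Γ × ℕ)) (𝓝 (L ((fun x => g * x) '' A) - L A)) :=
      (hL2 _).sub (hL2 _)
    have h2 : Tendsto (fun i => m i ((fun x => g * x) '' A) - m i A)
        (U : Filter (Finset Γ × ℕ)) (𝓝 0) := by
      have h3 : Tendsto (fun i : Finset Γ × ℕ => 1 / ((i.2 : ℝ) + 1))
          (U : Filter (Finset Γ × ℕ)) (𝓝 0) := by
        have h4 : Tendsto (fun i : Finset Γ × ℕ => i.2) (atTop : Filter (Finset Γ × ℕ)) atTop := by
          rw [← Filter.prod_atTop_atTop_eq]
          exact tendsto_snd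
        exact (tendsto_one_div_add_atTop_nhds_zero_nat.comp h4).mono_left hU
      apply squeeze_zero_norm' _ h3
      have h5 : ∀ᶠ i : Finset Γ × ℕ in atTop, g ∈ i.1 := by
        have : ∀ᶠ i : Finset Γ × ℕ in atTop, ({g}, 0) ≤ i := eventually_ge_atTop _
        filter_upwards [this] with i hi
        exact hi.1 (Finset.mem_singleton_self g)
      filter_upwards [hU h5] with i hi
      rw [Real.norm_eq_abs]
      exact hm2 i g hi A
    have h6 := tendsto_nhds_unique h1 h2
    linarith

end Pool.Agent.U501.Width
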