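import Pool.Agent.U501.Width.Amen

/-!
# The Bernoulli shift of a nonamenable group is strongly ergodic
-/

namespace Pool.Agent.U501.Width

open MeasureTheory Set Filter Topology

/-- The compact group `(ZMod 2)^Γ`. -/
abbrev Y (Γ : Type) : Type := Γ → ZMod 2

/-- The sign character of `ZMod 2`. -/
noncomputable def sgn (a : ZMod 2) : ℝ := if a = 0 then 1 else -1

lemma sgn_add (a b : ZMod 2) : sgn (a + b) = sgn a * sgn b := by
  have h : ∀ a b : ZMod 2, (a + b = 0 ↔ a = b) := by decide
  have h0 : ∀ a : ZMod 2, a = 0 ∨ a = 1 := by decide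
  unfold sgn
  rcases h0 a with rfl | rfl <;> rcases h0 b with rfl | rfl <;> simp [h]

lemma sgn_one : sgn 1 = -1 := by
  have : (1 : ZMod 2) ≠ 0 := by decide
  simp [sgn, this]

lemma sgn_zero : sgn 0 = 1 := by simp [sgn]

lemma sgn_mul_self (a : ZMod 2) : sgn a * sgn a = 1 := by
  unfold sgn; split_ifs <;> norm_num

lemma sgn_injective {a b : ZMod 2} (h : sgn a = sgn b) : a = b := by
  have h0 : ∀ a : ZMod 2, a = 0 ∨ a = 1 := by decide
  rcases h0 a with rfl | rfl <;> rcases h0 b with rfl | rfl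
  · rfl
  · rw [sgn_zero, sgn_one] at h; norm_num at h
  · rw [sgn_zero, sgn_one] at h; norm_num at h
  · rfl

variable {Γ : Type}

/-- The Walsh characters. -/
noncomputable def chi (S : Finset Γ) : C(Y Γ, ℝ) where
  toFun := fun y => ∏ s ∈ S, sgn (y s)
  continuous_toFun := by
    apply continuous_finsetProd
    intro s _
    exact (continuous_of_discreteTopology (f := sgn)).comp (continuous_apply s)

lemma chi_apply (S : Finset Γ) (y : Y Γ) : chi S y = ∏ s ∈ S, sgn (y s) := rfl

lemma chi_add (S : Finset Γ) (y z : Y Γ) : chi S (y + z) = chi S y * chi S z := by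
  simp only [chi_apply, Pi.add_apply, sgn_add, Finset.prod_mul_distrib]

lemma chi_mul [DecidableEq Γ] (S T : Finset Γ) : chi S * chi T = chi (symmDiff S T) := by
  ext y
  rw [ContinuousMap.mul_apply, chi_apply, chi_apply, chi_apply]
  have h1 : ∏ s ∈ S, sgn (y s) = (∏ s ∈ S ∩ T, sgn (y s)) * ∏ s ∈ S \ T, sgn (y s) :=
    (Finset.prod_inter_mul_prod_sdiff S T _).symm
  have h2 : ∏ s ∈ T, sgn (y s) = (∏ s ∈ T ∩ S, sgn (y s)) * ∏ s ∈ T \ S, sgn (y s) :=
    (Finset.prod_inter_mul_prod_sdiff T S _).symm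
  have h3 : symmDiff S T = (S \ T) ∪ (T \ S) := rfl
  have h4 : Disjoint (S \ T) (T \ S) := disjoint_sdiff_sdiff
  rw [h3, Finset.prod_union h4, h1, h2, Finset.inter_comm T S]
  have h5 : (∏ s ∈ S ∩ T, sgn (y s)) * (∏ s ∈ S ∩ T, sgn (y s)) = 1 := by
    rw [← Finset.prod_mul_distrib]
    exact Finset.prod_eq_one (fun s _ => sgn_mul_self _)
  calc _ = ((∏ s ∈ S ∩ T, sgn (y s)) * (∏ s ∈ S ∩ T, sgn (y s))) *
        ((∏ s ∈ S \ T, sgn (y s)) * ∏ s ∈ T \ S, sgn (y s)) := by ring
    _ = _ := by rw [h5, one_mul]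

lemma chi_single [DecidableEq Γ] {S : Finset Γ} {s : Γ} (hs : s ∈ S) :
    chi S (Pi.single s 1) = -1 := by
  rw [chi_apply, Finset.prod_eq_single s]
  · rw [Pi.single_eq_same, sgn_one]
  · intro t _ ht
    rw [Pi.single_eq_of_ne ht, sgn_zero]
  · intro h; exact absurd hs h

lemma chi_empty : chi (∅ : Finset Γ) = 1 := by
  ext y; rw [chi_apply]; simp

lemma abs_chi (S : Finset Γ) (y : Y Γ) : |chi S y| = 1 := by
  rw [chi_apply, Finset.abs_prod]
  apply Finset.prod_eq_one
  intro s _
  unfold sgn; split_ifs <;> norm_num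

/-- The span of the Walsh characters is dense in `C(Y, ℝ)`. -/
lemma span_chi_closure : (Submodule.span ℝ (Set.range (chi (Γ := Γ)))).topologicalClosure = ⊤ := by
  classical
  have h1 : Subalgebra.toSubmodule (Algebra.adjoin ℝ (Set.range (chi (Γ := Γ)))) =
      Submodule.span ℝ (Set.range (chi (Γ := Γ))) := by
    apply Algebra.adjoin_eq_span_of_subset
    refine Subset.trans ?_ Submodule.subset_span
    intro x hx
    refine Submonoid.closure_induction (fun _ => id) ⟨∅, chi_empty⟩ ?_ hx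
    rintro - - - - ⟨m, rfl⟩ ⟨n, rfl⟩
    exact ⟨symmDiff m n, (chi_mul m n).symm⟩
  have h2 : (Algebra.adjoin ℝ (Set.range (chi (Γ := Γ)))).SeparatesPoints := by
    intro x y hxy
    obtain ⟨s, hs⟩ := Function.ne_iff.mp hxy
    refine ⟨_, ⟨chi {s}, Algebra.subset_adjoin ⟨{s}, rfl⟩, rfl⟩, ?_⟩
    beta_reduce
    rw [chi_apply, chi_apply, Finset.prod_singleton, Finset.prod_singleton]
    exact fun h => hs (sgn_injective h)
  have h3 := ContinuousMap.subalgebra_topologicalClosure_eq_top_of_separatesPoints _ h2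
  rw [← h1]
  exact congrArg Subalgebra.toSubmodule h3

section Count

variable [Countable Γ]

/-- The uniform product measure, as the normalised Haar measure of `(ZMod 2)^Γ`. -/
noncomputable def bern (Γ : Type) [Countable Γ] : Measure (Y Γ) := Measure.addHaarMeasure ⊤

instance : IsProbabilityMeasure (bern Γ) := ⟨Measure.addHaarMeasure_self⟩

instance : (bern Γ).IsAddHaarMeasure := by unfold bern; infer_instance

instance : (bern Γ).WeaklyRegular := by unfold bern; infer_instance

lemma integral_chi {S : Finset Γ} (hS : S ≠ ∅) : ∫ y, chi S y ∂(bern Γ) = 0 := by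
  classical
  obtain ⟨s, hs⟩ := Finset.nonempty_iff_ne_empty.mpr hS
  apply integral_eq_zero_of_add_right_eq_neg (μ := bern Γ) (g := Pi.single s 1)
  intro y
  rw [chi_add, chi_single hs]; ring

lemma orthonormal_chi :
    Orthonormal ℝ (fun S : Finset Γ => ContinuousMap.toLp (E := ℝ) 2 (bern Γ) ℝ (chi S)) := by
  classical
  rw [orthonormal_iff_ite]
  intro S T
  rw [ContinuousMap.inner_toLp (bern Γ) (chi S) (chi T)]
  have h1 : ∀ y, chi T y * (starRingEnd ℝ) (chi S y) = chi (symmDiff T S) y := by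
    intro y
    rw [← chi_mul]; simp
  simp_rw [h1]
  split_ifs with h
  · subst h
    simp [chi_empty]
  · apply integral_chi
    intro h2
    apply h
    rw [← Finset.bot_eq_empty, symmDiff_eq_bot] at h2
    exact h2.symm

/-- The Walsh basis of `L²`. -/
noncomputable def walsh (Γ : Type) [Countable Γ] :
    HilbertBasis (Finset Γ) ℝ (Lp ℝ 2 (bern Γ)) :=
  HilbertBasis.mk orthonormal_chi (by
    apply ge_of_eq
    convert!
      (ContinuousMap.toLp_denseRange ℝ (bern Γ) ℝ
        (p := 2) (by norm_num)).topologicalClosure_map_submodule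
        span_chi_closure
    rw [Submodule.map_span, Set.range_comp']
    simp only [ContinuousLinearMap.coe_coe])

/-- Walsh coefficients. -/
noncomputable def coef (f : Y Γ → ℝ) (S : Finset Γ) : ℝ := ∫ y, f y * chi S y ∂(bern Γ)

lemma parseval {f : Y Γ → ℝ} (hf : MemLp f 2 (bern Γ)) :
    HasSum (fun S => (coef f S) ^ 2) (∫ y, (f y) ^ 2 ∂(bern Γ)) := by
  have h := (walsh Γ).hasSum_inner_mul_inner (hf.toLp f) (hf.toLp f)
  have h1 : inner ℝ (hf.toLp f) (hf.toLp f) = ∫ y, (f y) ^ 2 ∂(bern Γ) := by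
    rw [MeasureTheory.L2.inner_def]
    apply integral_congr_ae
    filter_upwards [hf.coeFn_toLp] with y hy
    rw [hy]
    simp [sq]
  rw [h1] at h
  convert! h using 1
  funext S
  have h2 : inner ℝ ((walsh Γ) S) (hf.toLp f) = coef f S := by
    have h3 : (walsh Γ) S = ContinuousMap.toLp (E := ℝ) 2 (bern Γ) ℝ (chi S) := by
      unfold walsh; rw [HilbertBasis.coe_mk]
    rw [h3, MeasureTheory.L2.inner_def]
    unfold coef
    apply integral_congr_ae
    filter_upwards [hf.coeFn_toLp, ContinuousMap.coeFn_toLp (p := 2) (𝕜 := ℝ) (bern Γ) (chi S)]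
      with y hy hy2
    rw [hy, hy2]
    simp
  rw [real_inner_comm, h2, sq]

end Count

end Pool.Agent.U501.Width
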