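import Pool.Agent.U501.Width.Strong

/-!
# The Bernoulli shift of an infinite group is free and has no atoms
-/

namespace Pool.Agent.U501.Width

open MeasureTheory Set Filter Topology

set_option linter.unusedSectionVars false

variable {Γ : Type} [Countable Γ]

lemma null_of_translates [DecidableEq Γ] [Infinite Γ] {H : Set (Y Γ)} (hH : MeasurableSet H)
    (h2 : ∀ y : Y Γ, ∃ a b : Γ, ∀ h : Γ, y + Pi.single h 1 ∈ H → h = a ∨ h = b) :
    bern Γ H = 0 := by
  by_contra hne
  have hpos : 0 < (bern Γ).real H := by
    rw [Measure.real, ENNReal.toReal_pos_iff]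
    exact ⟨pos_iff_ne_zero.mpr hne, measure_lt_top _ _⟩
  obtain ⟨N, hN⟩ := exists_nat_gt (2 / (bern Γ).real H)
  obtain ⟨s, hs⟩ := Infinite.exists_subset_card_eq Γ N
  have h3 : ∀ h : Γ, (bern Γ).real {y | y + Pi.single h 1 ∈ H} = (bern Γ).real H := by
    intro h
    exact (measurePreserving_add_right (bern Γ) (Pi.single h 1)).measureReal_preimage
      hH.nullMeasurableSet
  have hm : ∀ h : Γ, MeasurableSet {y : Y Γ | y + Pi.single h 1 ∈ H} := by
    intro h
    exact (measurePreserving_add_right (bern Γ) (Pi.single h 1)).measurable hH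
  have h4 : ∑ h ∈ s, (bern Γ).real {y | y + Pi.single h 1 ∈ H} =
      ∫ y, ∑ h ∈ s, {y : Y Γ | y + Pi.single h 1 ∈ H}.indicator (fun _ => (1 : ℝ)) y
        ∂(bern Γ) := by
    rw [integral_finsetSum]
    · apply Finset.sum_congr rfl
      intro h _
      rw [integral_indicator_const _ (hm h)]
      simp
    · intro h _
      exact (integrable_const (1 : ℝ)).indicator (hm h)
  have h5 : ∀ y : Y Γ,
      ∑ h ∈ s, {y : Y Γ | y + Pi.single h 1 ∈ H}.indicator (fun _ => (1 : ℝ)) y ≤ 2 := by
    intro y
    obtain ⟨a, b, hab⟩ := h2 y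
    have h6 : ∀ h ∈ s, {y : Y Γ | y + Pi.single h 1 ∈ H}.indicator (fun _ => (1 : ℝ)) y ≤
        (if h = a then 1 else 0) + (if h = b then 1 else 0) := by
      intro h _
      by_cases hy : y ∈ {y : Y Γ | y + Pi.single h 1 ∈ H}
      · rw [Set.indicator_of_mem hy]
        rcases hab h hy with h7 | h7
        · rw [if_pos h7]; split_ifs <;> norm_num
        · rw [if_pos h7]; split_ifs <;> norm_num
      · rw [Set.indicator_of_notMem hy]; positivity
    refine le_trans (Finset.sum_le_sum h6) ?_
    rw [Finset.sum_add_distrib, Finset.sum_ite_eq', Finset.sum_ite_eq']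
    split_ifs <;> norm_num
  have h6 : ∑ h ∈ s, (bern Γ).real {y | y + Pi.single h 1 ∈ H} ≤ 2 := by
    rw [h4]
    have h7 : ∫ y, ∑ h ∈ s, {y : Y Γ | y + Pi.single h 1 ∈ H}.indicator (fun _ => (1 : ℝ)) y
        ∂(bern Γ) ≤ ∫ _y : Y Γ, (2 : ℝ) ∂(bern Γ) := by
      apply integral_mono_of_nonneg
      · apply Filter.Eventually.of_forall
        intro y
        apply Finset.sum_nonneg
        intro h _
        exact Set.indicator_nonneg (fun _ _ => zero_le_one) _
      · exact integrable_const _
      · exact Filter.Eventually.of_forall h5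
    simpa using h7
  simp_rw [h3] at h6
  rw [Finset.sum_const, hs, nsmul_eq_mul] at h6
  rw [div_lt_iff₀ hpos] at hN
  linarith

lemma single_eq_single [DecidableEq Γ] {h k : Γ} (e : (Pi.single h 1 : Y Γ) = Pi.single k 1) :
    h = k := by
  by_contra hne
  have := congrFun e h
  rw [Pi.single_eq_same, Pi.single_eq_of_ne hne] at this
  exact absurd this (by decide)

lemma noAtoms_bern [Infinite Γ] : NullSingletonClass (bern Γ) := by
  classical
  constructor
  intro y0
  apply null_of_translates (measurableSet_singleton y0)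
  intro y
  by_cases h : ∃ a : Γ, y + Pi.single a 1 ∈ ({y0} : Set (Y Γ))
  · obtain ⟨a, ha⟩ := h
    refine ⟨a, a, fun k hk => Or.inl ?_⟩
    rw [Set.mem_singleton_iff] at ha hk
    rw [← ha] at hk
    exact single_eq_single (add_left_cancel hk)
  · push Not at h
    obtain ⟨a⟩ : Nonempty Γ := inferInstance
    exact ⟨a, a, fun k hk => absurd hk (h k)⟩

lemma shift_single [Group Γ] [DecidableEq Γ] (g h : Γ) :
    shift g (Pi.single h 1 : Y Γ) = Pi.single (g * h) 1 := by
  funext k
  unfold shift
  by_cases hk : k = g * h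
  · subst hk
    rw [inv_mul_cancel_left, Pi.single_eq_same, Pi.single_eq_same]
  · rw [Pi.single_eq_of_ne hk, Pi.single_eq_of_ne]
    intro h2
    exact hk (by rw [← h2, mul_inv_cancel_left])

lemma shift_add [Group Γ] (g : Γ) (x y : Y Γ) : shift g (x + y) = shift g x + shift g y := rfl

theorem shift_free [Group Γ] [Infinite Γ] {g : Γ} (hg : g ≠ 1) :
    ∀ᵐ y ∂(bern Γ), shift g y ≠ y := by
  classical
  have hmeas : MeasurableSet {y : Y Γ | shift g y = y} :=
    (isClosed_eq (continuous_shift g) continuous_id).measurableSet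
  have h0 : bern Γ {y : Y Γ | shift g y = y} = 0 := by
    apply null_of_translates hmeas
    intro y
    by_cases h : ∃ a : Γ, y + Pi.single a 1 ∈ {y : Y Γ | shift g y = y}
    · obtain ⟨a, ha⟩ := h
      refine ⟨a, g * a, fun k hk => ?_⟩
      rw [Set.mem_ofPred_eq, shift_add, shift_single] at ha hk
      by_contra hne
      push Not at hne
      have hga : g * a ≠ a := fun h1 => hg (by
        have := congrArg (fun x => x * a⁻¹) h1
        simpa using this)
      have e1 : shift g y = y + Pi.single a 1 - Pi.single (g * a) 1 := by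
        rw [← ha]; abel
      rw [e1] at hk
      have e2 := congrFun hk (g * a)
      have e3 := congrFun hk a
      simp only [Pi.add_apply, Pi.sub_apply, Pi.single_apply] at e2 e3
      by_cases hka : g * a = g * k
      · exact hne.1 (mul_left_cancel hka).symm
      · have h9 : ¬ (g * a = k) := fun h => hne.2 h.symm
        rw [if_pos trivial, if_neg hka, if_neg h9, if_neg hga] at e2
        have e4 : ∀ u : ZMod 2, u + 0 - 1 + 0 ≠ u + 0 := by decide
        exact e4 _ e2
    · push Not at h
      obtain ⟨a⟩ : Nonempty Γ := inferInstance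
      exact ⟨a, a, fun k hk => absurd hk (h k)⟩
  rw [ae_iff]
  simpa using h0

end Pool.Agent.U501.Width
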