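import Mathlib

/-!
# Two standard Borel spaces with non-atomic probability measures are isomorphic mod null sets
-/

namespace Pool.Agent.U501.Width

open MeasureTheory Set Filter Topology ProbabilityTheory

set_option linter.unusedSectionVars false

/-- Lebesgue measure on the unit interval, as a measure on the line. -/
noncomputable def lam : Measure ℝ := volume.restrict (Ioo 0 1)

instance : IsProbabilityMeasure lam := ⟨by
  unfold lam; rw [Measure.restrict_apply_univ, Real.volume_Ioo]; norm_num⟩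

section Real

variable (μ : Measure ℝ) [IsProbabilityMeasure μ]

/-- The quantile function. -/
noncomputable def Q (u : ℝ) : ℝ := by
  classical exact if u ∈ Ioo (0 : ℝ) 1 then sInf {x | u ≤ cdf μ x} else 0

lemma Q_set {u : ℝ} (hu : u ∈ Ioo (0 : ℝ) 1) :
    {x | u ≤ cdf μ x}.Nonempty ∧ BddBelow {x | u ≤ cdf μ x} := by
  constructor
  · have h := (tendsto_order.mp (tendsto_cdf_atTop μ)).1 u hu.2
    obtain ⟨x, hx⟩ := h.exists
    exact ⟨x, hx.le⟩
  · have h := (tendsto_order.mp (tendsto_cdf_atBot μ)).2 u hu.1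
    obtain ⟨x, hx⟩ := h.exists
    refine ⟨x, fun y hy => ?_⟩
    by_contra hlt
    push Not at hlt
    have h1 := monotone_cdf μ hlt.le
    exact absurd (lt_of_le_of_lt (le_trans hy h1) hx) (lt_irrefl _)

lemma Q_le_iff {u : ℝ} (hu : u ∈ Ioo (0 : ℝ) 1) (x : ℝ) : Q μ u ≤ x ↔ u ≤ cdf μ x := by
  obtain ⟨hne, hbd⟩ := Q_set μ hu
  have hQ : Q μ u = sInf {x | u ≤ cdf μ x} := by unfold Q; rw [if_pos hu]
  rw [hQ]
  constructor
  · intro h
    have h1 : ∀ y, x < y → u ≤ cdf μ y := by
      intro y hy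
      obtain ⟨z, hz, hzy⟩ := exists_lt_of_csInf_lt hne (lt_of_le_of_lt h hy)
      exact le_trans hz (monotone_cdf μ hzy.le)
    have h2 : ContinuousWithinAt (cdf μ) (Ioi x) x :=
      ((cdf μ).right_continuous x).mono Ioi_subset_Ici_self
    have h3 : (𝓝[>] x).NeBot := inferInstance
    apply ge_of_tendsto h2
    filter_upwards [self_mem_nhdsWithin] with y hy
    exact h1 y hy
  · intro h
    exact csInf_le hbd h

lemma cdf_Q [NullSingletonClass μ] {u : ℝ} (hu : u ∈ Ioo (0 : ℝ) 1) : cdf μ (Q μ u) = u := by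
  apply le_antisymm
  · have h1 : ∀ x, x < Q μ u → cdf μ x < u := by
      intro x hx
      by_contra h
      push Not at h
      exact absurd ((Q_le_iff μ hu x).mpr h) (not_le.mpr hx)
    -- `μ (Iic (Q u)) = μ (Iio (Q u))` is the limit of `μ (Iic x)`
    rw [cdf_eq_real]
    have h2 : μ.real (Iic (Q μ u)) = μ.real (Iio (Q μ u)) := by
      rw [Measure.real, Measure.real, measure_congr Iio_ae_eq_Iic]
    rw [h2]
    have h3 : Tendsto (fun n : ℕ => μ.real (Iic (Q μ u - 1 / ((n : ℝ) + 1)))) atTop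
        (𝓝 (μ.real (Iio (Q μ u)))) := by
      have hmono : Monotone (fun n : ℕ => Iic (Q μ u - 1 / ((n : ℝ) + 1))) := by
        intro n m hnm
        apply Iic_subset_Iic.mpr
        have : 1 / ((m : ℝ) + 1) ≤ 1 / ((n : ℝ) + 1) := by
          apply one_div_le_one_div_of_le (by positivity)
          have : (n : ℝ) ≤ m := by exact_mod_cast hnm
          linarith
        linarith
      have hU : ⋃ n : ℕ, Iic (Q μ u - 1 / ((n : ℝ) + 1)) = Iio (Q μ u) := by
        ext x
        simp only [mem_iUnion, mem_Iic, mem_Iio]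
        constructor
        · rintro ⟨n, hn⟩
          have : 0 < 1 / ((n : ℝ) + 1) := by positivity
          linarith
        · intro hx
          obtain ⟨n, hn⟩ := exists_nat_one_div_lt (sub_pos.mpr hx)
          exact ⟨n, by linarith⟩
      have h4 := tendsto_measure_iUnion_atTop (μ := μ) hmono
      rw [hU] at h4
      exact (ENNReal.tendsto_toReal (measure_ne_top _ _)).comp h4
    apply le_of_tendsto' h3
    intro n
    rw [← cdf_eq_real]
    apply le_of_lt
    apply h1
    have : 0 < 1 / ((n : ℝ) + 1) := by positivity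
    linarith
  · exact (Q_le_iff μ hu _).mp le_rfl

lemma measurable_Q : Measurable (Q μ) := by
  classical
  apply measurable_of_Iic
  intro c
  have h : Q μ ⁻¹' Iic c = (Ioo (0 : ℝ) 1 ∩ Iic (cdf μ c)) ∪
      ((Ioo (0 : ℝ) 1)ᶜ ∩ {_u | (0 : ℝ) ≤ c}) := by
    ext u
    simp only [mem_preimage, mem_Iic, mem_union, mem_inter_iff, mem_compl_iff, mem_ofPred_eq]
    by_cases hu : u ∈ Ioo (0 : ℝ) 1
    · rw [Q_le_iff μ hu]; tauto
    · have hQ : Q μ u = 0 := by unfold Q; rw [if_neg hu]
      rw [hQ]; tauto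
  rw [h]
  apply MeasurableSet.union
  · exact measurableSet_Ioo.inter measurableSet_Iic
  · exact measurableSet_Ioo.compl.inter (MeasurableSet.const _)

lemma map_Q : Measure.map (Q μ) lam = μ := by
  have hprob : IsProbabilityMeasure (Measure.map (Q μ) lam) :=
    Measure.isProbabilityMeasure_map (measurable_Q μ).aemeasurable
  apply Measure.eq_of_cdf
  ext x
  rw [cdf_eq_real, Measure.real, Measure.map_apply (measurable_Q μ) measurableSet_Iic]
  have h0 := cdf_nonneg μ x
  have h1 := cdf_le_one μ x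
  have h : lam (Q μ ⁻¹' Iic x) = ENNReal.ofReal (cdf μ x) := by
    unfold lam
    rw [Measure.restrict_apply (measurable_Q μ measurableSet_Iic)]
    have h2 : Q μ ⁻¹' Iic x ∩ Ioo 0 1 = Iic (cdf μ x) ∩ Ioo 0 1 := by
      ext u
      simp only [mem_inter_iff, mem_preimage, mem_Iic]
      constructor
      · rintro ⟨h3, h4⟩; exact ⟨(Q_le_iff μ h4 x).mp h3, h4⟩
      · rintro ⟨h3, h4⟩; exact ⟨(Q_le_iff μ h4 x).mpr h3, h4⟩
    rw [h2]
    apply le_antisymm
    · have h5 : Iic (cdf μ x) ∩ Ioo 0 1 ⊆ Ioc 0 (cdf μ x) := by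
        rintro u ⟨h3, h4⟩; exact ⟨h4.1, h3⟩
      refine le_trans (measure_mono h5) ?_
      rw [Real.volume_Ioc, sub_zero]
    · have h5 : Ioo 0 (cdf μ x) ⊆ Iic (cdf μ x) ∩ Ioo 0 1 := by
        rintro u ⟨h3, h4⟩; exact ⟨h4.le, h3, lt_of_lt_of_le h4 h1⟩
      refine le_trans ?_ (measure_mono h5)
      rw [Real.volume_Ioo, sub_zero]
  rw [h, ENNReal.toReal_ofReal h0]

lemma measurable_cdf : Measurable (fun x => cdf μ x) := (monotone_cdf μ).measurable

lemma ae_cdf_Q [NullSingletonClass μ] : ∀ᵐ u ∂lam, cdf μ (Q μ u) = u := by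
  unfold lam
  rw [ae_restrict_iff' measurableSet_Ioo]
  exact Filter.Eventually.of_forall fun u hu => cdf_Q μ hu

lemma map_cdf [NullSingletonClass μ] : Measure.map (fun x => cdf μ x) μ = lam := by
  have h1 : Measure.map (fun x => cdf μ x) (Measure.map (Q μ) lam) = lam := by
    rw [Measure.map_map (measurable_cdf μ) (measurable_Q μ)]
    have h2 : ((fun x => cdf μ x) ∘ Q μ) =ᵐ[lam] id := ae_cdf_Q μ
    rw [Measure.map_congr h2, Measure.map_id]
  rwa [map_Q] at h1

lemma ae_Q_cdf [NullSingletonClass μ] : ∀ᵐ x ∂μ, Q μ (cdf μ x) = x := by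
  have hm : MeasurableSet {x | Q μ (cdf μ x) = x} :=
    measurableSet_eq_fun ((measurable_Q μ).comp (measurable_cdf μ)) measurable_id
  have h1 : ∀ᵐ x ∂(Measure.map (Q μ) lam), Q μ (cdf μ x) = x := by
    rw [ae_map_iff (measurable_Q μ).aemeasurable hm]
    filter_upwards [ae_cdf_Q μ] with u hu
    rw [hu]
  rwa [map_Q] at h1

end Real

/-- An isomorphism mod null sets. -/
structure AEIso {X Y : Type} [MeasurableSpace X] [MeasurableSpace Y] (μ : Measure X)
    (ν : Measure Y) (φ : X → Y) (ψ : Y → X) : Prop where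
  meas : Measurable φ
  meas' : Measurable ψ
  map : Measure.map φ μ = ν
  map' : Measure.map ψ ν = μ
  left : ∀ᵐ x ∂μ, ψ (φ x) = x
  right : ∀ᵐ y ∂ν, φ (ψ y) = y

lemma AEIso.symm {X Y : Type} [MeasurableSpace X] [MeasurableSpace Y] {μ : Measure X}
    {ν : Measure Y} {φ : X → Y} {ψ : Y → X} (h : AEIso μ ν φ ψ) : AEIso ν μ ψ φ :=
  ⟨h.meas', h.meas, h.map', h.map, h.right, h.left⟩

lemma AEIso.trans {X Y Z : Type} [MeasurableSpace X] [MeasurableSpace Y] [MeasurableSpace Z]
    {μ : Measure X} {ν : Measure Y} {ρ : Measure Z} {φ : X → Y} {ψ : Y → X} {φ' : Y → Z}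
    {ψ' : Z → Y} (h : AEIso μ ν φ ψ) (h' : AEIso ν ρ φ' ψ') :
    AEIso μ ρ (φ' ∘ φ) (ψ ∘ ψ') := by
  refine ⟨h'.meas.comp h.meas, h.meas'.comp h'.meas', ?_, ?_, ?_, ?_⟩
  · rw [← Measure.map_map h'.meas h.meas, h.map, h'.map]
  · rw [← Measure.map_map h.meas' h'.meas', h'.map', h.map']
  · have h1 : ∀ᵐ x ∂μ, ψ' (φ' (φ x)) = φ x := by
      have h2 : ∀ᵐ y ∂(Measure.map φ μ), ψ' (φ' y) = y := by rw [h.map]; exact h'.left
      exact ae_of_ae_map h.meas.aemeasurable h2
    filter_upwards [h1, h.left] with x hx1 hx2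
    rw [Function.comp_apply, Function.comp_apply, hx1, hx2]
  · have h1 : ∀ᵐ z ∂ρ, φ (ψ (ψ' z)) = ψ' z := by
      have h2 : ∀ᵐ y ∂(Measure.map ψ' ρ), φ (ψ y) = y := by rw [h'.map']; exact h.right
      exact ae_of_ae_map h'.meas'.aemeasurable h2
    filter_upwards [h1, h'.right] with x hx1 hx2
    rw [Function.comp_apply, Function.comp_apply, hx1, hx2]

theorem exists_aeiso_lam (X : Type) [MeasurableSpace X] [StandardBorelSpace X] (μ : Measure X)
    [IsProbabilityMeasure μ] [NullSingletonClass μ] : ∃ (φ : X → ℝ) (ψ : ℝ → X), AEIso μ lam φ ψ := by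
  have hXne : Nonempty X := by
    by_contra h
    rw [not_nonempty_iff] at h
    have h1 : μ Set.univ = 1 := measure_univ
    rw [Set.univ_eq_empty_iff.mpr h, measure_empty] at h1
    exact zero_ne_one h1
  obtain ⟨e, he⟩ := exists_measurableEmbedding_real X
  obtain ⟨g, hg, hge⟩ := he.exists_measurable_extend measurable_id (fun _ => hXne)
  set μ' : Measure ℝ := Measure.map e μ with hμ'
  have hprob : IsProbabilityMeasure μ' := Measure.isProbabilityMeasure_map he.measurable.aemeasurable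
  have hna : NullSingletonClass μ' := by
    constructor
    intro r
    rw [hμ', he.map_apply]
    exact (Set.subsingleton_singleton.preimage he.injective).measure_zero μ
  have hiso : AEIso μ' lam (fun x => cdf μ' x) (Q μ') :=
    ⟨measurable_cdf μ', measurable_Q μ', map_cdf μ', map_Q μ', ae_Q_cdf μ', ae_cdf_Q μ'⟩
  have hX : AEIso μ μ' e g := by
    have hgid : ∀ x, g (e x) = x := fun x => congrFun hge x
    refine ⟨he.measurable, hg, rfl, ?_, Filter.Eventually.of_forall hgid, ?_⟩
    · rw [hμ', Measure.map_map hg he.measurable]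
      have : g ∘ e = id := hge
      rw [this, Measure.map_id]
    · rw [hμ', ae_map_iff he.measurable.aemeasurable]
      · exact Filter.Eventually.of_forall fun x => by rw [hgid]
      · exact measurableSet_eq_fun (he.measurable.comp hg) measurable_id
  exact ⟨_, _, hX.trans hiso⟩

theorem exists_aeiso (X Y : Type) [MeasurableSpace X] [StandardBorelSpace X] (μ : Measure X)
    [IsProbabilityMeasure μ] [NullSingletonClass μ] [MeasurableSpace Y] [StandardBorelSpace Y]
    (ν : Measure Y) [IsProbabilityMeasure ν] [NullSingletonClass ν] :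
    ∃ (φ : X → Y) (ψ : Y → X), AEIso μ ν φ ψ := by
  obtain ⟨φ, ψ, h⟩ := exists_aeiso_lam X μ
  obtain ⟨φ', ψ', h'⟩ := exists_aeiso_lam Y ν
  exact ⟨_, _, h.trans h'.symm⟩

end Pool.Agent.U501.Width
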