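import Pool.Agent.U501.Width.Bern

/-!
# Strong ergodicity and freeness of the Bernoulli shift
-/

namespace Pool.Agent.U501.Width

open MeasureTheory Set Filter Topology

set_option linter.unusedSectionVars false

variable {Γ : Type} [Group Γ]

/-- The shift. -/
def shift (g : Γ) (y : Y Γ) : Y Γ := fun h => y (g⁻¹ * h)

lemma shift_one (y : Y Γ) : shift 1 y = y := by
  funext h; simp [shift]

lemma shift_mul (g h : Γ) (y : Y Γ) : shift (g * h) y = shift g (shift h y) := by
  funext k; simp [shift, mul_assoc]

/-- The shift as an additive equivalence. -/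
def shiftEquiv (g : Γ) : Y Γ ≃+ Y Γ where
  toFun := shift g
  invFun := shift g⁻¹
  left_inv := by
    intro y; rw [← shift_mul, inv_mul_cancel, shift_one]
  right_inv := by
    intro y; rw [← shift_mul, mul_inv_cancel, shift_one]
  map_add' := by
    intro x y; funext h; rfl

lemma continuous_shift (g : Γ) : Continuous (shift g : Y Γ → Y Γ) := by
  apply continuous_pi
  intro h
  exact continuous_apply _

/-- The shift as a homeomorphism. -/
def shiftHomeo (g : Γ) : Y Γ ≃ₜ Y Γ where
  toEquiv := (shiftEquiv g).toEquiv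
  continuous_toFun := continuous_shift g
  continuous_invFun := continuous_shift g⁻¹

variable [Countable Γ]

lemma measurePreserving_shift (g : Γ) : MeasurePreserving (shift g) (bern Γ) (bern Γ) := by
  refine ⟨(continuous_shift g).measurable, ?_⟩
  have h1 : (Measure.map (shiftEquiv g) (bern Γ)).IsAddHaarMeasure :=
    AddEquiv.isAddHaarMeasure_map (bern Γ) (shiftEquiv g) (continuous_shift g)
      (continuous_shift g⁻¹)
  have h2 : IsProbabilityMeasure (Measure.map (shiftEquiv g) (bern Γ)) :=
    Measure.isProbabilityMeasure_map (continuous_shift g).measurable.aemeasurable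
  exact Measure.isAddHaarMeasure_eq_of_isProbabilityMeasure
    (Measure.map (shiftEquiv g) (bern Γ)) (bern Γ)

lemma chi_shift [DecidableEq Γ] (g : Γ) (S : Finset Γ) (y : Y Γ) :
    chi S (shift g y) = chi (S.image (fun s => g⁻¹ * s)) y := by
  rw [chi_apply, chi_apply, Finset.prod_image]
  · rfl
  · intro a _ b _ h
    exact mul_left_cancel h

lemma coef_comp_shift [DecidableEq Γ] (g : Γ) (f : Y Γ → ℝ) (S : Finset Γ) :
    coef (fun y => f (shift g y)) S = coef f (S.image (fun s => g * s)) := by
  unfold coef
  have hemb : MeasurableEmbedding (shift g : Y Γ → Y Γ) :=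
    (shiftHomeo g).measurableEmbedding
  rw [← (measurePreserving_shift g).integral_comp hemb
    (fun y => f y * chi (S.image (fun s => g * s)) y)]
  apply integral_congr_ae
  filter_upwards with y
  rw [chi_shift, Finset.image_image]
  have : (fun s : Γ => g⁻¹ * s) ∘ (fun s => g * s) = id := by
    funext s; simp
  rw [this, Finset.image_id]

/-- The centred indicator function of `B`. -/
noncomputable def cind (B : Set (Y Γ)) (y : Y Γ) : ℝ :=
  B.indicator (fun _ => (1 : ℝ)) y - (bern Γ).real B

lemma abs_cind_le (B : Set (Y Γ)) (y : Y Γ) : |cind B y| ≤ 1 := by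
  unfold cind
  have h1 : 0 ≤ (bern Γ).real B := measureReal_nonneg
  have h2 : (bern Γ).real B ≤ 1 := measureReal_le_one
  by_cases h : y ∈ B
  · rw [Set.indicator_of_mem h, abs_le]; constructor <;> linarith
  · rw [Set.indicator_of_notMem h, abs_le]; constructor <;> linarith

lemma measurable_cind {B : Set (Y Γ)} (hB : MeasurableSet B) : Measurable (cind B) :=
  (measurable_const.indicator hB).sub measurable_const

lemma memLp_of_bdd {f : Y Γ → ℝ} (hf : Measurable f) {C : ℝ} (hC : ∀ y, |f y| ≤ C) :
    MemLp f 2 (bern Γ) :=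
  MemLp.of_bound hf.aestronglyMeasurable C (Filter.Eventually.of_forall hC)

lemma integral_cind_sq {B : Set (Y Γ)} (hB : MeasurableSet B) :
    ∫ y, (cind B y) ^ 2 ∂(bern Γ) = (bern Γ).real B * (1 - (bern Γ).real B) := by
  set p := (bern Γ).real B with hp
  have h1 : ∀ y, (cind B y) ^ 2 = (1 - 2 * p) * B.indicator (fun _ => (1 : ℝ)) y + p ^ 2 := by
    intro y
    unfold cind
    by_cases h : y ∈ B
    · rw [Set.indicator_of_mem h]; ring
    · rw [Set.indicator_of_notMem h]; ring
  simp_rw [h1]
  rw [integral_add, integral_const_mul, integral_indicator_const _ hB]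
  · simp only [integral_const, smul_eq_mul, mul_one, probReal_univ, one_mul]
    rw [← hp]; ring
  · exact ((integrable_const (1 : ℝ)).indicator hB).const_mul _
  · exact integrable_const _

lemma coef_cind_empty {B : Set (Y Γ)} (hB : MeasurableSet B) : coef (cind B) ∅ = 0 := by
  unfold coef
  rw [chi_empty]
  simp only [ContinuousMap.one_apply, mul_one]
  unfold cind
  rw [integral_sub, integral_indicator_const _ hB]
  · simp
  · exact (integrable_const (1 : ℝ)).indicator hB
  · exact integrable_const _

lemma coef_add {f g : Y Γ → ℝ} (hf : MemLp f 2 (bern Γ)) (hg : MemLp g 2 (bern Γ))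
    (S : Finset Γ) : coef (fun y => f y + g y) S = coef f S + coef g S := by
  unfold coef
  rw [← integral_add]
  · apply integral_congr_ae
    filter_upwards with y
    ring
  · exact hf.integrable (by norm_num) |>.mul_bdd (c := 1)
      (chi S).continuous.measurable.aestronglyMeasurable
      (Filter.Eventually.of_forall fun y => by rw [Real.norm_eq_abs, abs_chi])
  · exact hg.integrable (by norm_num) |>.mul_bdd (c := 1)
      (chi S).continuous.measurable.aestronglyMeasurable
      (Filter.Eventually.of_forall fun y => by rw [Real.norm_eq_abs, abs_chi])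

/-- The proportion of `S` inside `D`. -/
noncomputable def wt (D : Set Γ) (S : Finset Γ) : ℝ := ((D ∩ ↑S).ncard : ℝ) / S.card

lemma wt_nonneg (D : Set Γ) (S : Finset Γ) : 0 ≤ wt D S := by
  unfold wt; positivity

lemma wt_le_one (D : Set Γ) (S : Finset Γ) : wt D S ≤ 1 := by
  unfold wt
  apply div_le_one_of_le₀
  · have h := Set.ncard_le_ncard (Set.inter_subset_right : D ∩ ↑S ⊆ (S : Set Γ))
      S.finite_toSet
    rw [Set.ncard_coe_finset] at h
    exact_mod_cast h
  · positivity

lemma wt_univ {S : Finset Γ} (hS : S ≠ ∅) : wt Set.univ S = 1 := by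
  unfold wt
  have : (0 : ℝ) < S.card := by
    exact_mod_cast Finset.card_pos.mpr (Finset.nonempty_iff_ne_empty.mpr hS)
  rw [Set.univ_inter, Set.ncard_coe_finset]
  exact div_self this.ne'

lemma wt_union {D E : Set Γ} (h : Disjoint D E) (S : Finset Γ) :
    wt (D ∪ E) S = wt D S + wt E S := by
  unfold wt
  rw [← add_div, Set.union_inter_distrib_right, Set.ncard_union_eq]
  · push_cast; rfl
  · exact Disjoint.mono Set.inter_subset_left Set.inter_subset_left h

lemma wt_image (g : Γ) (D : Set Γ) (S : Finset Γ) :
    wt ((fun x => g * x) '' D) (S.map (Equiv.mulLeft g).toEmbedding) = wt D S := by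
  unfold wt
  rw [Finset.card_map, Finset.coe_map]
  have h1 : (fun x => g * x) '' D ∩ ((Equiv.mulLeft g).toEmbedding : Γ → Γ) '' (S : Set Γ) =
      (fun x => g * x) '' (D ∩ ↑S) := by
    rw [Set.image_inter (mul_right_injective g)]; rfl
  rw [h1, Set.ncard_image_of_injective _ (mul_right_injective g)]

/-- The mass of `D`. -/
noncomputable def mass (c : Finset Γ → ℝ) (D : Set Γ) : ℝ := ∑' S, (c S) ^ 2 * wt D S

lemma summable_mass {c : Finset Γ → ℝ} (hc : Summable (fun S => (c S) ^ 2)) (D : Set Γ) :
    Summable (fun S => (c S) ^ 2 * wt D S) :=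
  Summable.of_nonneg_of_le (fun S => mul_nonneg (sq_nonneg _) (wt_nonneg D S))
    (fun S => mul_le_of_le_one_right (sq_nonneg _) (wt_le_one D S)) hc

lemma mass_nonneg (c : Finset Γ → ℝ) (D : Set Γ) : 0 ≤ mass c D :=
  tsum_nonneg (fun S => mul_nonneg (sq_nonneg _) (wt_nonneg D S))

lemma mass_univ {c : Finset Γ → ℝ} (h0 : c ∅ = 0) : mass c Set.univ = ∑' S, (c S) ^ 2 := by
  unfold mass
  congr 1
  funext S
  by_cases hS : S = ∅
  · rw [hS, h0]; simp
  · rw [wt_univ hS, mul_one]

lemma mass_union {c : Finset Γ → ℝ} (hc : Summable (fun S => (c S) ^ 2)) {D E : Set Γ}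
    (h : Disjoint D E) : mass c (D ∪ E) = mass c D + mass c E := by
  unfold mass
  rw [← (summable_mass hc D).tsum_add (summable_mass hc E)]
  congr 1
  funext S
  rw [wt_union h, mul_add]

lemma mass_image (c : Finset Γ → ℝ) (g : Γ) (D : Set Γ) :
    mass c ((fun x => g * x) '' D) =
      mass (fun S => c (S.map (Equiv.mulLeft g).toEmbedding)) D := by
  unfold mass
  rw [← (Equiv.finsetCongr (Equiv.mulLeft g)).tsum_eq]
  congr 1
  funext S
  rw [Equiv.finsetCongr_apply, wt_image]

lemma mass_sub_le {c d : Finset Γ → ℝ} (hc : Summable (fun S => (c S) ^ 2))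
    (hd : Summable (fun S => (d S) ^ 2)) {A B : ℝ}
    (h1 : HasSum (fun S => (c S - d S) ^ 2) A) (h2 : HasSum (fun S => (c S + d S) ^ 2) B)
    {r : ℝ} (hr : 0 < r) (D : Set Γ) :
    |mass c D - mass d D| ≤ A / (2 * r) + r / 2 * B := by
  unfold mass
  rw [← (summable_mass hc D).tsum_sub (summable_mass hd D)]
  have h3 : HasSum (fun S => (c S - d S) ^ 2 / (2 * r) + r / 2 * (c S + d S) ^ 2)
      (A / (2 * r) + r / 2 * B) := (h1.div_const (2 * r)).add (h2.mul_left (r / 2))
  have hle : ∀ S, |(c S) ^ 2 * wt D S - (d S) ^ 2 * wt D S| ≤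
      (c S - d S) ^ 2 / (2 * r) + r / 2 * (c S + d S) ^ 2 := by
    intro S
    have h4 : (c S) ^ 2 * wt D S - (d S) ^ 2 * wt D S = ((c S - d S) * (c S + d S)) * wt D S := by
      ring
    rw [h4, abs_mul, abs_of_nonneg (wt_nonneg D S)]
    have h5 : |(c S - d S) * (c S + d S)| * wt D S ≤ |(c S - d S) * (c S + d S)| :=
      mul_le_of_le_one_right (abs_nonneg _) (wt_le_one D S)
    refine le_trans h5 ?_
    set a := c S - d S with ha
    set b := c S + d S with hb
    rw [abs_mul]
    have h6 : 0 ≤ (|a| - r * |b|) ^ 2 := sq_nonneg _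
    have h7 : a ^ 2 / (2 * r) + r / 2 * b ^ 2 - |a| * |b| = (|a| - r * |b|) ^ 2 / (2 * r) := by
      rw [← sq_abs a, ← sq_abs b]
      clear_value a b
      field_simp
      ring
    have h8 : 0 ≤ (|a| - r * |b|) ^ 2 / (2 * r) := by positivity
    linarith
  have hs : Summable (fun S => |(c S) ^ 2 * wt D S - (d S) ^ 2 * wt D S|) :=
    Summable.of_nonneg_of_le (fun S => abs_nonneg _) hle h3.summable
  calc |∑' S, ((c S) ^ 2 * wt D S - (d S) ^ 2 * wt D S)|
      ≤ ∑' S, |(c S) ^ 2 * wt D S - (d S) ^ 2 * wt D S| := by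
        have := norm_tsum_le_tsum_norm (f := fun S => (c S) ^ 2 * wt D S - (d S) ^ 2 * wt D S) hs
        simpa [Real.norm_eq_abs] using this
    _ ≤ _ := by
        rw [← h3.tsum_eq]
        exact hs.tsum_le_tsum hle h3.summable

lemma coef_sub {f g : Y Γ → ℝ} (hf : MemLp f 2 (bern Γ)) (hg : MemLp g 2 (bern Γ))
    (S : Finset Γ) : coef (fun y => f y - g y) S = coef f S - coef g S := by
  unfold coef
  rw [← integral_sub]
  · apply integral_congr_ae
    filter_upwards with y
    ring
  · exact hf.integrable (by norm_num) |>.mul_bdd (c := 1)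
      (chi S).continuous.measurable.aestronglyMeasurable
      (Filter.Eventually.of_forall fun y => by rw [Real.norm_eq_abs, abs_chi])
  · exact hg.integrable (by norm_num) |>.mul_bdd (c := 1)
      (chi S).continuous.measurable.aestronglyMeasurable
      (Filter.Eventually.of_forall fun y => by rw [Real.norm_eq_abs, abs_chi])

/-- Strong ergodicity of the Bernoulli shift of a nonamenable group. -/
theorem strong_ergodic (hΓ : ¬ Amenable Γ) {δ : ℝ} (hδ : 0 < δ) :
    ∃ (F : Finset Γ) (ε : ℝ), 0 < ε ∧ ∀ B : Set (Y Γ), MeasurableSet B →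
      (∀ g ∈ F, (bern Γ).real (symmDiff (shift g ⁻¹' B) B) ≤ ε) →
      (bern Γ).real B * (1 - (bern Γ).real B) < δ := by
  classical
  by_contra hcon
  push Not at hcon
  apply hΓ
  apply amenable_of_approx
  intro F n
  set r : ℝ := δ / (3 * ((n : ℝ) + 1)) with hr
  have hr0 : 0 < r := by positivity
  obtain ⟨B, hB, hinv, hbig⟩ := hcon F (r ^ 2) (by positivity)
  set c : Finset Γ → ℝ := fun S => coef (cind B) S with hc
  set M : ℝ := (bern Γ).real B * (1 - (bern Γ).real B) with hM
  have hMpos : 0 < M := lt_of_lt_of_le hδ hbig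
  have hmem : MemLp (cind B) 2 (bern Γ) := memLp_of_bdd (measurable_cind hB) (abs_cind_le B)
  have hpar : HasSum (fun S => (c S) ^ 2) M := by
    rw [hM, ← integral_cind_sq hB]; exact parseval hmem
  have hc0 : c ∅ = 0 := coef_cind_empty hB
  refine ⟨fun D => mass c D / M, ⟨?_, ?_, ?_⟩, ?_⟩
  · intro D; exact div_nonneg (mass_nonneg c D) hMpos.le
  · beta_reduce
    rw [mass_univ hc0, hpar.tsum_eq]; exact div_self hMpos.ne'
  · intro D E hDE
    beta_reduce
    rw [mass_union hpar.summable hDE, add_div]
  · intro g hg D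
    beta_reduce
    rw [← sub_div, abs_div, abs_of_pos hMpos]
    set B' : Set (Y Γ) := shift g ⁻¹' B with hB'
    have hB'm : MeasurableSet B' := (continuous_shift g).measurable hB
    have hmeas : (bern Γ).real B' = (bern Γ).real B :=
      (measurePreserving_shift g).measureReal_preimage hB.nullMeasurableSet
    have hcind : ∀ y, cind B' y = cind B (shift g y) := by
      intro y
      unfold cind
      rw [hmeas]; rfl
    have hmem' : MemLp (cind B') 2 (bern Γ) :=
      memLp_of_bdd (measurable_cind hB'm) (abs_cind_le B')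
    set d : Finset Γ → ℝ := fun S => c (S.map (Equiv.mulLeft g).toEmbedding) with hd
    have hd' : ∀ S, d S = coef (cind B') S := by
      intro S
      have h1 : cind B' = fun y => cind B (shift g y) := funext hcind
      rw [h1, coef_comp_shift]
      have h2 : S.map (Equiv.mulLeft g).toEmbedding = S.image (fun s => g * s) := by
        rw [Finset.map_eq_image]; rfl
      rw [← h2]
    have hpar' : HasSum (fun S => (d S) ^ 2) (∫ y, (cind B' y) ^ 2 ∂(bern Γ)) := by
      simp_rw [hd']; exact parseval hmem'
    have hsub : HasSum (fun S => (d S - c S) ^ 2)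
        (∫ y, (cind B' y - cind B y) ^ 2 ∂(bern Γ)) := by
      have h1 : ∀ S, d S - c S = coef (fun y => cind B' y - cind B y) S := by
        intro S; rw [coef_sub hmem' hmem, hd']
      simp_rw [h1]
      exact parseval (hmem'.sub hmem)
    have hadd : HasSum (fun S => (d S + c S) ^ 2)
        (∫ y, (cind B' y + cind B y) ^ 2 ∂(bern Γ)) := by
      have h1 : ∀ S, d S + c S = coef (fun y => cind B' y + cind B y) S := by
        intro S; rw [coef_add hmem' hmem, hd']
      simp_rw [h1]
      exact parseval (hmem'.add hmem)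
    have hA : ∫ y, (cind B' y - cind B y) ^ 2 ∂(bern Γ) ≤ r ^ 2 := by
      have h1 : ∀ y, (cind B' y - cind B y) ^ 2 =
          (symmDiff B' B).indicator (fun _ => (1 : ℝ)) y := by
        intro y
        unfold cind
        rw [hmeas]
        have h2 : B'.indicator (fun _ => (1 : ℝ)) y - (bern Γ).real B -
            (B.indicator (fun _ => (1 : ℝ)) y - (bern Γ).real B) =
            B'.indicator (fun _ => (1 : ℝ)) y - B.indicator (fun _ => (1 : ℝ)) y := by ring
        rw [h2]
        clear_value B'
        by_cases ha : y ∈ B' <;> by_cases hb : y ∈ B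
        · have h3 : y ∉ symmDiff B' B := by
            rw [Set.mem_symmDiff]; tauto
          rw [Set.indicator_of_mem ha, Set.indicator_of_mem hb, Set.indicator_of_notMem h3]
          norm_num
        · have h3 : y ∈ symmDiff B' B := by
            rw [Set.mem_symmDiff]; tauto
          rw [Set.indicator_of_mem ha, Set.indicator_of_notMem hb, Set.indicator_of_mem h3]
          norm_num
        · have h3 : y ∈ symmDiff B' B := by
            rw [Set.mem_symmDiff]; tauto
          rw [Set.indicator_of_notMem ha, Set.indicator_of_mem hb, Set.indicator_of_mem h3]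
          norm_num
        · have h3 : y ∉ symmDiff B' B := by
            rw [Set.mem_symmDiff]; tauto
          rw [Set.indicator_of_notMem ha, Set.indicator_of_notMem hb, Set.indicator_of_notMem h3]
          norm_num
      simp_rw [h1]
      rw [integral_indicator_const _ (hB'm.symmDiff hB)]
      simpa using hinv g hg
    have hBd : ∫ y, (cind B' y + cind B y) ^ 2 ∂(bern Γ) ≤ 4 := by
      have h1 : ∀ y, (cind B' y + cind B y) ^ 2 ≤ 4 := by
        intro y
        have h2 := abs_le.mp (abs_cind_le B' y)
        have h3 := abs_le.mp (abs_cind_le B y)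
        nlinarith [h2.1, h2.2, h3.1, h3.2]
      have h2 : ∫ y, (cind B' y + cind B y) ^ 2 ∂(bern Γ) ≤ ∫ _y : Y Γ, (4 : ℝ) ∂(bern Γ) := by
        apply integral_mono_of_nonneg
        · exact Filter.Eventually.of_forall fun y => sq_nonneg _
        · exact integrable_const _
        · exact Filter.Eventually.of_forall h1
      simpa using h2
    rw [mass_image]
    have hfin := mass_sub_le hpar'.summable hpar.summable hsub hadd hr0 D
    have h3 : (∫ y, (cind B' y - cind B y) ^ 2 ∂(bern Γ)) / (2 * r) +
        r / 2 * ∫ y, (cind B' y + cind B y) ^ 2 ∂(bern Γ) ≤ r ^ 2 / (2 * r) + r / 2 * 4 := by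
      apply add_le_add
      · exact div_le_div_of_nonneg_right hA (by positivity)
      · exact mul_le_mul_of_nonneg_left hBd (by positivity)
    have h4 : r ^ 2 / (2 * r) + r / 2 * 4 ≤ 3 * r := by
      have : r ^ 2 / (2 * r) = r / 2 := by field_simp
      rw [this]; linarith
    have h5 : |mass d D - mass c D| ≤ δ / ((n : ℝ) + 1) := by
      have : 3 * r = δ / ((n : ℝ) + 1) := by rw [hr]; field_simp
      linarith
    calc |mass d D - mass c D| / M ≤ (δ / ((n : ℝ) + 1)) / M :=
          div_le_div_of_nonneg_right h5 hMpos.le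
      _ = (δ / M) * (1 / ((n : ℝ) + 1)) := by field_simp
      _ ≤ 1 * (1 / ((n : ℝ) + 1)) := by
          apply mul_le_mul_of_nonneg_right _ (by positivity)
          rw [div_le_one hMpos]; exact hbig
      _ = 1 / ((n : ℝ) + 1) := one_mul _

end Pool.Agent.U501.Width
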