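import Pool.Agent.U501.Width.Free
import Pool.Agent.U501.Width.Action

/-!
# Two copies of the Bernoulli shift, with weights `t` and `1 - t`
-/

namespace Pool.Agent.U501.Width

open MeasureTheory Set Filter Topology

set_option linter.unusedSectionVars false

/-- The measure on `Bool` with mass `t` at `true` and `1 - t` at `false`. -/
noncomputable def kap (t : ℝ) : Measure Bool :=
  ENNReal.ofReal t • Measure.dirac true + ENNReal.ofReal (1 - t) • Measure.dirac false

lemma kap_prob {t : ℝ} (h0 : 0 ≤ t) (h1 : t ≤ 1) : IsProbabilityMeasure (kap t) := by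
  constructor
  unfold kap
  simp only [Measure.coe_add, Measure.coe_smul, Pi.add_apply, Pi.smul_apply, smul_eq_mul,
    measure_univ, mul_one]
  rw [← ENNReal.ofReal_add h0 (by linarith)]
  norm_num

variable {Γ : Type} [Countable Γ]

/-- The measure on `Y × Bool`. -/
noncomputable def two (Γ : Type) [Countable Γ] (t : ℝ) : Measure (Y Γ × Bool) :=
  (bern Γ).prod (kap t)

instance (t : ℝ) : SFinite (kap t) := by unfold kap; infer_instance

lemma two_prob {t : ℝ} (h0 : 0 ≤ t) (h1 : t ≤ 1) : IsProbabilityMeasure (two Γ t) := by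
  have := kap_prob h0 h1
  unfold two; infer_instance

lemma two_real {t : ℝ} (h0 : 0 ≤ t) (h1 : t ≤ 1) {B : Set (Y Γ × Bool)}
    (hB : MeasurableSet B) :
    (two Γ t).real B = t * (bern Γ).real {y | (y, true) ∈ B} +
      (1 - t) * (bern Γ).real {y | (y, false) ∈ B} := by
  have hp := kap_prob h0 h1
  have h2 : two Γ t B = ENNReal.ofReal t * bern Γ {y | (y, true) ∈ B} +
      ENNReal.ofReal (1 - t) * bern Γ {y | (y, false) ∈ B} := by
    unfold two
    rw [Measure.prod_apply_symm hB]
    unfold kap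
    rw [lintegral_add_measure, lintegral_smul_measure, lintegral_smul_measure,
      lintegral_dirac, lintegral_dirac]
    rfl
  rw [Measure.real, h2, ENNReal.toReal_add, ENNReal.toReal_mul, ENNReal.toReal_mul,
    ENNReal.toReal_ofReal h0, ENNReal.toReal_ofReal (by linarith)]
  · rfl
  · exact ENNReal.mul_ne_top ENNReal.ofReal_ne_top (measure_ne_top _ _)
  · exact ENNReal.mul_ne_top ENNReal.ofReal_ne_top (measure_ne_top _ _)

lemma two_noAtoms [Infinite Γ] (t : ℝ) : NullSingletonClass (two Γ t) := by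
  have := noAtoms_bern (Γ := Γ)
  unfold two; infer_instance

variable [Group Γ]

/-- The action. -/
noncomputable def twoAct (t : ℝ) : PmpAction Γ (two Γ t) where
  act := fun g p => (shift g p.1, p.2)
  act_one := fun p => by rw [shift_one]
  act_mul := fun g h p => by rw [shift_mul]
  pres := fun g => by
    unfold two
    exact (measurePreserving_shift g).prod (MeasurePreserving.id (kap t))

lemma twoAct_act (t : ℝ) (g : Γ) (p : Y Γ × Bool) :
    (twoAct t).act g p = (shift g p.1, p.2) := rfl

lemma twoAct_free [Infinite Γ] {t : ℝ} : (twoAct (Γ := Γ) t).IsFree := by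
  intro g hg
  have h1 : ∀ᵐ p ∂((bern Γ).prod (kap t)), shift g p.1 ≠ p.1 := by
    have h2 := shift_free (Γ := Γ) hg
    exact (Measure.quasiMeasurePreserving_fst (μ := bern Γ) (ν := kap t)).ae h2
  change ∀ᵐ p ∂((bern Γ).prod (kap t)), _
  filter_upwards [h1] with p hp hp2
  apply hp
  exact congrArg Prod.fst hp2

/-- If `p (1 - p) < δ` then `p` is near `0` or near `1`. -/
lemma near_of_mul {p δ : ℝ} (h0 : 0 ≤ p) (h1 : p ≤ 1) (h : p * (1 - p) < δ) :
    p < 2 * δ ∨ 1 - p < 2 * δ := by
  by_cases hp : p ≤ 1 / 2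
  · left; nlinarith
  · right; push Not at hp; nlinarith

/-- Incomparability. -/
theorem twoAct_incomparable (hΓ : ¬ Amenable Γ) {s t : ℝ} (hs : s ∈ Ioo (0 : ℝ) (1 / 2))
    (ht : t ∈ Ioo (0 : ℝ) (1 / 2)) (hst : s ≠ t) :
    ¬ WeaklyContained (twoAct (Γ := Γ) s) (twoAct (Γ := Γ) t) := by
  classical
  intro hw
  have hs0 := hs.1
  have hs1 := hs.2
  have ht0 := ht.1
  have ht1 := ht.2
  -- the distance from `s` to `{0, t, 1 - t, 1}`
  obtain ⟨d, hd0, hd1, hd2, hd3⟩ : ∃ d : ℝ, 0 < d ∧ d ≤ s ∧ d ≤ |s - t| ∧ d ≤ 1 - t - s := by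
    refine ⟨min s (min |s - t| (1 - t - s)), ?_, min_le_left _ _, ?_, ?_⟩
    · apply lt_min hs0 (lt_min (abs_pos.mpr (sub_ne_zero.mpr hst)) (by linarith))
    · exact le_trans (min_le_right _ _) (min_le_left _ _)
    · exact le_trans (min_le_right _ _) (min_le_right _ _)
  obtain ⟨F, ε, hε, hF⟩ := strong_ergodic hΓ (δ := d / 4) (by positivity)
  have hpos : 0 < min (d / 4) (t * ε / 4) := by positivity
  obtain ⟨B, hB, hB2⟩ := hw (insert 1 (F.image (fun g => g⁻¹))) _ hpos 1
    (fun _ => {p | p.2 = true}) (fun _ => measurable_snd (measurableSet_singleton true))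
  have hp2 := two_prob (Γ := Γ) ht0.le (by linarith : t ≤ 1)
  set C := B 0 with hC
  have hCm : MeasurableSet C := hB 0
  have hAim : ∀ g : Γ, (twoAct (Γ := Γ) s).act g '' {p | p.2 = true} ∩ {p | p.2 = true} =
      {p | p.2 = true} := by
    intro g
    rw [PmpAction.image_eq]
    ext p
    simp only [mem_inter_iff, mem_preimage, mem_ofPred_eq, twoAct_act, and_self]
  have hAs : (two Γ s).real {p | p.2 = true} = s := by
    have hm : MeasurableSet {p : Y Γ × Bool | p.2 = true} :=
      measurable_snd (measurableSet_singleton true)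
    rw [two_real hs0.le (by linarith) hm]
    simp
  -- the estimates for `C`
  have hest : ∀ g ∈ insert 1 (F.image (fun g => g⁻¹)),
      |s - (two Γ t).real ((twoAct (Γ := Γ) t).act g '' C ∩ C)| < min (d / 4) (t * ε / 4) := by
    intro g hg
    have h1 := hB2 g hg 0 0
    rw [hAim, hAs] at h1
    exact h1
  have hest1 : |s - (two Γ t).real C| < min (d / 4) (t * ε / 4) := by
    have h1 := hest 1 (Finset.mem_insert_self _ _)
    have h2 : (twoAct (Γ := Γ) t).act 1 '' C ∩ C = C := by
      rw [PmpAction.image_eq]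
      ext p
      simp only [mem_inter_iff, mem_preimage, inv_one, PmpAction.act_one, and_self]
    rwa [h2] at h1
  -- almost invariance of the two slices
  have hsl : ∀ b : Bool, MeasurableSet {y : Y Γ | (y, b) ∈ C} := by
    intro b
    exact measurable_prodMk_right hCm
  have hinv : ∀ g ∈ F, t * (bern Γ).real (symmDiff (shift g ⁻¹' {y | (y, true) ∈ C})
        {y | (y, true) ∈ C}) +
      (1 - t) * (bern Γ).real (symmDiff (shift g ⁻¹' {y | (y, false) ∈ C})
        {y | (y, false) ∈ C}) ≤ t * ε := by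
    intro g hg
    have hgm : g⁻¹ ∈ insert 1 (F.image (fun g => g⁻¹)) :=
      Finset.mem_insert_of_mem (Finset.mem_image_of_mem _ hg)
    have h1 := hest g⁻¹ hgm
    set D := (twoAct (Γ := Γ) t).act g⁻¹ '' C with hD
    have hDm : MeasurableSet D := PmpAction.measurable_image _ _ hCm
    have hDr : (two Γ t).real D = (two Γ t).real C := PmpAction.real_image _ _ hCm
    have h2 : (two Γ t).real (symmDiff D C) =
        (two Γ t).real D + (two Γ t).real C - 2 * (two Γ t).real (D ∩ C) := by
      have e1 : symmDiff D C = (D \ C) ∪ (C \ D) := rfl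
      have e2 : Disjoint (D \ C) (C \ D) := disjoint_sdiff_sdiff
      have e3 : (two Γ t).real (D ∩ C) + (two Γ t).real (D \ C) = (two Γ t).real D :=
        measureReal_inter_add_sdiff hCm
      have e4 : (two Γ t).real (C ∩ D) + (two Γ t).real (C \ D) = (two Γ t).real C :=
        measureReal_inter_add_sdiff hDm
      rw [e1, measureReal_union e2 (hCm.diff hDm)]
      rw [inter_comm C D] at e4
      linarith
    have h3 := abs_lt.mp (lt_of_lt_of_le h1 (min_le_right _ _))
    have h4 := abs_lt.mp (lt_of_lt_of_le hest1 (min_le_right _ _))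
    have h5 : (two Γ t).real (symmDiff D C) ≤ t * ε := by
      rw [h2, hDr]; linarith [h3.1, h3.2, h4.1, h4.2]
    rw [two_real ht0.le (by linarith) (hDm.symmDiff hCm)] at h5
    have h6 : ∀ b : Bool, {y : Y Γ | (y, b) ∈ symmDiff D C} =
        symmDiff (shift g ⁻¹' {y | (y, b) ∈ C}) {y | (y, b) ∈ C} := by
      intro b
      ext y
      rw [hD, PmpAction.image_eq]
      simp only [mem_ofPred_eq, mem_symmDiff, mem_preimage, inv_inv, twoAct_act]
    rw [h6, h6] at h5
    exact h5
  have hδ1 : (bern Γ).real {y | (y, true) ∈ C} * (1 - (bern Γ).real {y | (y, true) ∈ C}) <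
      d / 4 := by
    apply hF _ (hsl true)
    intro g hg
    have h1 := hinv g hg
    have h2 : 0 ≤ (1 - t) * (bern Γ).real (symmDiff (shift g ⁻¹' {y | (y, false) ∈ C})
        {y | (y, false) ∈ C}) := mul_nonneg (by linarith) measureReal_nonneg
    have h3 : t * (bern Γ).real (symmDiff (shift g ⁻¹' {y | (y, true) ∈ C})
        {y | (y, true) ∈ C}) ≤ t * ε := by linarith
    exact le_of_mul_le_mul_left h3 ht0
  have hδ2 : (bern Γ).real {y | (y, false) ∈ C} * (1 - (bern Γ).real {y | (y, false) ∈ C}) <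
      d / 4 := by
    apply hF _ (hsl false)
    intro g hg
    have h1 := hinv g hg
    have h2 : 0 ≤ t * (bern Γ).real (symmDiff (shift g ⁻¹' {y | (y, true) ∈ C})
        {y | (y, true) ∈ C}) := mul_nonneg ht0.le measureReal_nonneg
    have h3 : (1 - t) * (bern Γ).real (symmDiff (shift g ⁻¹' {y | (y, false) ∈ C})
        {y | (y, false) ∈ C}) ≤ (1 - t) * ε := by nlinarith
    exact le_of_mul_le_mul_left h3 (by linarith)
  have hfin := abs_lt.mp (lt_of_lt_of_le hest1 (min_le_left _ _))
  rw [two_real ht0.le (by linarith) hCm] at hfin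
  set p := (bern Γ).real {y | (y, true) ∈ C}
  set q := (bern Γ).real {y | (y, false) ∈ C}
  have hp0 : 0 ≤ p := measureReal_nonneg
  have hp1 : p ≤ 1 := measureReal_le_one
  have hq0 : 0 ≤ q := measureReal_nonneg
  have hq1 : q ≤ 1 := measureReal_le_one
  obtain ⟨hf1, hf2⟩ := hfin
  rcases near_of_mul hp0 hp1 hδ1 with hp | hp <;> rcases near_of_mul hq0 hq1 hδ2 with hq | hq
  · -- both small
    have : t * p + (1 - t) * q < d / 2 := by nlinarith
    linarith
  · -- near `1 - t`
    have h1 : (1 - t) * (1 - q) ≤ 1 * (1 - q) :=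
      mul_le_mul_of_nonneg_right (by linarith) (by linarith)
    have h2 : 0 ≤ t * p := mul_nonneg ht0.le hp0
    nlinarith
  · -- near `t`
    have h1 : t * (1 - p) ≤ 1 * (1 - p) := mul_le_mul_of_nonneg_right (by linarith) (by linarith)
    have h2 : (1 - t) * q ≤ 1 * q := mul_le_mul_of_nonneg_right (by linarith) hq0
    have h3 : 0 ≤ (1 - t) * q := mul_nonneg (by linarith) hq0
    have h4 : 0 ≤ t * (1 - p) := mul_nonneg ht0.le (by linarith)
    rcases le_abs.mp hd2 with h5 | h5 <;> nlinarith
  · -- near `1`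
    have h1 : t * (1 - p) ≤ t * (d / 2) := mul_le_mul_of_nonneg_left (by linarith) ht0.le
    have h2 : (1 - t) * (1 - q) ≤ (1 - t) * (d / 2) :=
      mul_le_mul_of_nonneg_left (by linarith) (by linarith)
    nlinarith

end Pool.Agent.U501.Width
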