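import Pool.Agent.U501.Width.Two

/-!
# The width of the preorder of free actions
-/

namespace Pool.Agent.U501.Width

open MeasureTheory Set Filter Topology Cardinal

set_option linter.unusedSectionVars false

/-- The free pmp actions of `Γ` on `(X, μ)`. -/
def FreeAction (Γ : Type) [Group Γ] {X : Type} [MeasurableSpace X] (μ : Measure X) : Type :=
  {a : PmpAction Γ μ // a.IsFree}

/-- A set of free actions, any two distinct members of which are incomparable for weak
containment. -/
def AntichainOfActions {Γ : Type} [Group Γ] {X : Type} [MeasurableSpace X] {μ : Measure X}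
    (S : Set (FreeAction Γ μ)) : Prop :=
  ∀ a ∈ S, ∀ b ∈ S, a ≠ b → ¬ WeaklyContained a.1 b.1 ∧ ¬ WeaklyContained b.1 a.1

/-- The width: the supremum of the cardinalities of the antichains. -/
noncomputable def width (Γ : Type) [Group Γ] {X : Type} [MeasurableSpace X] (μ : Measure X) :
    Cardinal :=
  ⨆ S : {S : Set (FreeAction Γ μ) // AntichainOfActions S}, #S.1

section Upper

variable {Γ : Type} [Group Γ] [Countable Γ] {X : Type} [MeasurableSpace X] {μ : Measure X}

/-- Finite rational data. -/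
abbrev Data (Γ : Type) : Type :=
  Σ (F : Finset Γ) (n : ℕ), ((F → Fin n → Fin n → ℚ) × ℕ)

/-- The data realised by an action. -/
def realised (a : PmpAction Γ μ) : Set (Data Γ) :=
  {D | ∃ A : Fin D.2.1 → Set X, (∀ i, MeasurableSet (A i)) ∧ ∀ g : D.1, ∀ i j,
    |μ.real (a.act g '' A i ∩ A j) - (D.2.2.1 g i j : ℝ)| < 1 / ((D.2.2.2 : ℝ) + 1)}

lemma weak_of_realised {a b : PmpAction Γ μ} (h : realised a = realised b) :
    WeaklyContained a b := by
  intro F ε hε n A hA
  obtain ⟨k, hk⟩ := exists_nat_one_div_lt (half_pos hε)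
  have hk0 : (0 : ℝ) < 1 / ((k : ℝ) + 1) := by positivity
  have hq : ∀ (g : F) (i j : Fin n), ∃ q : ℚ,
      |μ.real (a.act g '' A i ∩ A j) - (q : ℝ)| < 1 / ((k : ℝ) + 1) := by
    intro g i j
    obtain ⟨q, hq1, hq2⟩ := exists_rat_btwn (show μ.real (a.act g '' A i ∩ A j) <
      μ.real (a.act g '' A i ∩ A j) + 1 / ((k : ℝ) + 1) by linarith)
    refine ⟨q, ?_⟩
    rw [abs_lt]; constructor <;> linarith
  choose q hq using hq
  have h1 : (⟨F, n, q, k⟩ : Data Γ) ∈ realised a := ⟨A, hA, hq⟩
  rw [h] at h1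
  obtain ⟨B, hB, hB2⟩ := h1
  refine ⟨B, hB, fun g hg i j => ?_⟩
  have e1 := hq ⟨g, hg⟩ i j
  have e2 := hB2 ⟨g, hg⟩ i j
  have e3 := abs_sub_le (μ.real (a.act g '' A i ∩ A j)) (q ⟨g, hg⟩ i j : ℝ)
    (μ.real (b.act g '' B i ∩ B j))
  rw [abs_sub_comm] at e2
  change |(q ⟨g, hg⟩ i j : ℝ) - μ.real (b.act g '' B i ∩ B j)| < 1 / ((k : ℝ) + 1) at e2
  linarith

lemma card_antichain_le (S : Set (FreeAction Γ μ)) (hS : AntichainOfActions S) : #S ≤ 𝔠 := by
  have hinj : Function.Injective (fun a : S => realised a.1.1) := by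
    intro a b hab
    by_contra hne
    have h1 : a.1 ≠ b.1 := fun h => hne (Subtype.ext h)
    exact (hS a.1 a.2 b.1 b.2 h1).1 (weak_of_realised hab)
  calc #S ≤ #(Set (Data Γ)) := Cardinal.mk_le_of_injective hinj
    _ = 2 ^ #(Data Γ) := Cardinal.mk_set
    _ ≤ 2 ^ ℵ₀ := Cardinal.power_le_power_left (by norm_num) (Cardinal.mk_le_aleph0)
    _ = 𝔠 := Cardinal.two_power_aleph0

end Upper

theorem width_eq_continuum (Γ : Type) [Group Γ] [Countable Γ] (hΓ : ¬ Amenable Γ) (X : Type)
    [MeasurableSpace X] [StandardBorelSpace X] (μ : Measure X) [IsProbabilityMeasure μ]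
    [NullSingletonClass μ] : width Γ μ = 𝔠 := by
  classical
  apply le_antisymm
  · apply ciSup_le'
    rintro ⟨S, hS⟩
    exact card_antichain_le S hS
  · have hinf : Infinite Γ := by
      by_contra h
      rw [not_infinite_iff_finite] at h
      exact hΓ (amenable_of_finite Γ)
    have hex : ∀ t : Ioo (0 : ℝ) (1 / 2), ∃ a : FreeAction Γ μ,
        WeaklyContained (twoAct (Γ := Γ) t.1) a.1 ∧ WeaklyContained a.1 (twoAct (Γ := Γ) t.1) := by
      intro t
      have h1 := two_prob (Γ := Γ) (t := t.1) t.2.1.le (by linarith [t.2.2])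
      have h2 := two_noAtoms (Γ := Γ) t.1
      obtain ⟨φ, ψ, h⟩ := exists_aeiso X (Y Γ × Bool) μ (two Γ t.1)
      obtain ⟨a', ha1, ha2, ha3⟩ := exists_transport h (twoAct (Γ := Γ) t.1)
      exact ⟨⟨a', ha3 twoAct_free⟩, ha1, ha2⟩
    choose f hf1 hf2 using hex
    have hinc : ∀ s t : Ioo (0 : ℝ) (1 / 2), s ≠ t → ¬ WeaklyContained (f s).1 (f t).1 := by
      intro s t hst hw
      exact twoAct_incomparable hΓ s.2 t.2 (fun h => hst (Subtype.ext h))
        ((hf1 s).trans (hw.trans (hf2 t)))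
    have hinj : Function.Injective f := by
      intro s t hst
      by_contra hne
      apply hinc s t hne
      rw [hst]; exact WeaklyContained.refl _
    have hanti : AntichainOfActions (Set.range f) := by
      rintro _ ⟨s, rfl⟩ _ ⟨t, rfl⟩ hst
      have hne : s ≠ t := fun h => hst (by rw [h])
      exact ⟨hinc s t hne, hinc t s hne.symm⟩
    have hcard : #(Set.range f) = 𝔠 := by
      rw [Cardinal.mk_range_eq f hinj]
      exact Cardinal.mk_Ioo_real (by norm_num)
    rw [← hcard]
    exact le_ciSup (f := fun S : {S : Set (FreeAction Γ μ) // AntichainOfActions S} => #S.1)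
      Cardinal.bddAbove_of_small ⟨Set.range f, hanti⟩

end Pool.Agent.U501.Width
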